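import Pool.Agent.T9h29.WQ.Spec

/-!
# P1: power series
-/

set_option autoImplicit false

namespace Pool.Agent.T9h46.WQ

open MvPowerSeries Pool.Agent.T9h29.WQ

universe u

section P1a

variable {k : Type u} [Field k] [CharP k 2]

lemma two_ne : (2 : ℕ) ≠ 0 := by norm_num

/-- coefficients of a square -/
lemma coeff_sq (f : A k) (m : Fin 2 →₀ ℕ) : coeff (2 • m) (f ^ 2) = (coeff m f) ^ 2 := by
  have : ExpChar k 2 := ExpChar.prime Nat.prime_two
  rw [← map_frobenius_expand 2 two_ne (R := k) (f := f), coeff_map, coeff_expand_smul]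
  rfl

lemma coeff_sq_of_odd (f : A k) {n : Fin 2 →₀ ℕ} {i : Fin 2} (h : ¬ 2 ∣ n i) :
    coeff n (f ^ 2) = 0 := by
  have : ExpChar k 2 := ExpChar.prime Nat.prime_two
  rw [← map_frobenius_expand 2 two_ne (R := k) (f := f), coeff_map,
    coeff_expand_of_not_dvd 2 two_ne f h, map_zero]

/-- the part of `f` with the exponents congruent to `e` modulo `2` -/
lemma exists_part [IsAlgClosed k] (f : A k) (e : Fin 2 →₀ ℕ) (he : ∀ i, e i ≤ 1) :
    ∃ g : A k, ∀ n : Fin 2 →₀ ℕ, coeff n (g ^ 2 * monomial e 1) =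
      if ∀ i, n i % 2 = e i then coeff n f else 0 := by
  choose r hr using fun a : k => IsAlgClosed.exists_pow_nat_eq a (n := 2) (by norm_num)
  obtain ⟨g, hg⟩ : ∃ g : A k, ∀ m, coeff m g = r (coeff (2 • m + e) f) :=
    ⟨fun m => r (coeff (2 • m + e) f), fun m => rfl⟩
  refine ⟨g, fun n => ?_⟩
  rw [coeff_mul_monomial]
  split_ifs with h1 h2 h2
  · -- e ≤ n, congruent
    have h3 : n - e = 2 • (n - e).mapRange (· / 2) rfl := by
      ext i
      have := h1 i
      have := h2 i
      simp only [Finsupp.coe_tsub, Pi.sub_apply, Finsupp.smul_apply, Finsupp.mapRange_apply,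
        smul_eq_mul]
      omega
    rw [h3, coeff_sq, mul_one, hg, hr, ← h3, tsub_add_cancel_of_le h1]
  · push Not at h2
    obtain ⟨i, hi⟩ := h2
    rw [coeff_sq_of_odd (i := i), zero_mul]
    have := h1 i
    have := he i
    simp only [Finsupp.coe_tsub, Pi.sub_apply]
    omega
  · exfalso
    apply h1
    intro i
    have := h2 i
    omega
  · rfl

lemma stmtP1a : StmtP1a.{u} := by
  intro k _ _ _ f
  obtain ⟨f0, h0⟩ := exists_part f 0 (by simp)
  obtain ⟨f1, h1⟩ := exists_part f (Finsupp.single 0 1) (by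
    intro i; rw [Finsupp.single_apply]; split_ifs <;> norm_num)
  obtain ⟨f2, h2⟩ := exists_part f (Finsupp.single 1 1) (by
    intro i; rw [Finsupp.single_apply]; split_ifs <;> norm_num)
  obtain ⟨f3, h3⟩ := exists_part f (Finsupp.single 0 1 + Finsupp.single 1 1) (by
    intro i; fin_cases i <;> simp)
  refine ⟨f0, f1, f2, f3, ?_⟩
  have e0 : (1 : A k) = monomial 0 1 := rfl
  have e1 : (X 0 : A k) = monomial (Finsupp.single 0 1) 1 := rfl
  have e2 : (X 1 : A k) = monomial (Finsupp.single 1 1) 1 := rfl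
  have e3 : (X 0 * X 1 : A k) = monomial (Finsupp.single 0 1 + Finsupp.single 1 1) 1 := by
    rw [e1, e2, monomial_mul_monomial, one_mul]
  rw [e3, e1, e2, ← mul_one (f0 ^ 2), e0]
  ext n
  rw [map_add, map_add, map_add, h0, h1, h2, h3]
  simp only [Fin.forall_fin_two, Finsupp.coe_zero, Pi.zero_apply, Finsupp.add_apply,
    Finsupp.single_apply]
  rcases Nat.mod_two_eq_zero_or_one (n 0) with a | a <;>
  rcases Nat.mod_two_eq_zero_or_one (n 1) with b | b <;> simp [a, b]

end P1a

section P1b

variable {k : Type u} [Field k]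

lemma mem_mm {f : A k} : f ∈ mm k ↔ constantCoeff f = 0 := by
  rw [IsLocalRing.mem_maximalIdeal, mem_nonunits_iff, isUnit_iff_constantCoeff,
    isUnit_iff_ne_zero, not_not]

lemma mm_eq : mm k = Ideal.span {X 0, X 1} := by
  apply le_antisymm
  · intro f hf
    rw [mem_mm] at hf
    let g : A k := fun m => if m 0 = 0 then coeff m f else 0
    have hg : ∀ m, coeff m g = if m 0 = 0 then coeff m f else 0 := fun m => rfl
    have h1 : X 0 ∣ f - g := by
      rw [X_dvd_iff]
      intro m hm
      rw [map_sub, hg, if_pos hm, sub_self]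
    have h2 : X 1 ∣ g := by
      rw [X_dvd_iff]
      intro m hm
      rw [hg]
      split_ifs with h
      · have : m = 0 := by
          ext i; fin_cases i
          · exact h
          · exact hm
        rw [this]
        exact hf
      · rfl
    obtain ⟨a, ha⟩ := h1
    obtain ⟨b, hb⟩ := h2
    rw [Ideal.mem_span_pair]
    refine ⟨a, b, ?_⟩
    rw [mul_comm a, mul_comm b, ← ha, ← hb]; ring
  · rw [Ideal.span_le]
    rintro f (rfl | rfl)
    · exact mem_mm.2 (by simp)
    · exact mem_mm.2 (by simp)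

lemma coeff_of_mem_pow : ∀ (n : ℕ) (f : A k), f ∈ mm k ^ n →
    ∀ m : Fin 2 →₀ ℕ, m.degree < n → coeff m f = 0 := by
  intro n
  induction n with
  | zero => intro f _ m hm; omega
  | succ n ih =>
    intro f hf
    rw [pow_succ'] at hf
    refine Submodule.mul_induction_on hf ?_ ?_
    · intro a ha b hb m hm
      rw [coeff_mul]
      refine Finset.sum_eq_zero fun p hp => ?_
      rw [Finset.HasAntidiagonal.mem_antidiagonal] at hp
      by_cases h0 : p.1 = 0
      · have : coeff p.1 a = 0 := by rw [h0]; exact mem_mm.1 ha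
        rw [this, zero_mul]
      · have h1 : p.1.degree + p.2.degree = m.degree := by rw [← hp, map_add]
        have h2 : p.1.degree ≠ 0 := by rwa [Ne, Finsupp.degree_eq_zero_iff]
        rw [ih b hb p.2 (by omega), mul_zero]
    · intro a b ha hb m hm
      rw [map_add, ha m hm, hb m hm, add_zero]

end P1b

theorem stmtP1b : StmtP1b.{u} := fun _ _ => ⟨mm_eq, fun _ => mem_mm, coeff_of_mem_pow⟩

end Pool.Agent.T9h46.WQ
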