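import Pool.Agent.T9h46.WQ.P1

/-!
# P2: the numerical invariants
-/

set_option autoImplicit false

namespace Pool.Agent.T9h46.WQ

open MvPowerSeries Pool.Agent.T9h29.WQ

universe u

variable {k : Type u} [Field k]

lemma sub_C_mem (f : A k) : f - C (constantCoeff f) ∈ mm k := by
  rw [mem_mm, map_sub, constantCoeff_C, sub_self]

lemma X_mem (i : Fin 2) : (X i : A k) ∈ mm k := mem_mm.2 (by simp)

lemma alg_C (c : k) : algebraMap k (A k) c = C c := rfl

/-- linear parts -/
lemma exists_lin {x y : A k} (h : Ideal.span {x, y} = mm k) {f : A k} (hf : f ∈ mm k) :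
    ∃ p q : k, f - (C p * x + C q * y) ∈ mm k ^ 2 := by
  have hx : x ∈ mm k := h ▸ Ideal.subset_span (by simp)
  have hy : y ∈ mm k := h ▸ Ideal.subset_span (by simp)
  rw [← h, Ideal.mem_span_pair] at hf
  obtain ⟨a, b, rfl⟩ := hf
  refine ⟨constantCoeff a, constantCoeff b, ?_⟩
  have e : a * x + b * y - (C (constantCoeff a) * x + C (constantCoeff b) * y) =
      (a - C (constantCoeff a)) * x + (b - C (constantCoeff b)) * y := by ring
  rw [e, sq]
  exact add_mem (Ideal.mul_mem_mul (sub_C_mem a) hx) (Ideal.mul_mem_mul (sub_C_mem b) hy)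

lemma coeff_lin (p q : k) (i : Fin 2) :
    coeff (Finsupp.single i 1) (C p * X 0 + C q * X 1 : A k) = if i = 0 then p else q := by
  rw [map_add, coeff_C_mul, coeff_C_mul, coeff_index_single_X, coeff_index_single_X]
  fin_cases i <;> simp

lemma lin_indep {p q : k} (h : (C p * X 0 + C q * X 1 : A k) ∈ mm k ^ 2) : p = 0 ∧ q = 0 := by
  have h1 := coeff_of_mem_pow 2 _ h (Finsupp.single 0 1) (by simp)
  have h2 := coeff_of_mem_pow 2 _ h (Finsupp.single 1 1) (by simp)
  rw [coeff_lin] at h1 h2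
  exact ⟨by simpa using h1, by simpa using h2⟩

/-- the class of a linear combination -/
lemma smul_cot (p q : k) {x y : A k} (hx : x ∈ mm k) (hy : y ∈ mm k) :
    p • (mm k).toCotangent ⟨x, hx⟩ + q • (mm k).toCotangent ⟨y, hy⟩ =
      (mm k).toCotangent ⟨C p * x + C q * y,
        add_mem (Ideal.mul_mem_left _ _ hx) (Ideal.mul_mem_left _ _ hy)⟩ := by
  rw [← algebraMap_smul (A k) p, ← algebraMap_smul (A k) q, ← map_smul, ← map_smul, ← map_add]
  rfl

lemma top_le_span {x y : A k} (h : Ideal.span {x, y} = mm k) (hx : x ∈ mm k) (hy : y ∈ mm k) :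
    ⊤ ≤ Submodule.span k (Set.range ![(mm k).toCotangent ⟨x, hx⟩, (mm k).toCotangent ⟨y, hy⟩]) := by
  intro c _
  obtain ⟨⟨f, hf⟩, rfl⟩ := (mm k).toCotangent_surjective c
  obtain ⟨p, q, hpq⟩ := exists_lin h hf
  have e : (mm k).toCotangent ⟨f, hf⟩ = p • (mm k).toCotangent ⟨x, hx⟩ +
      q • (mm k).toCotangent ⟨y, hy⟩ := by
    rw [smul_cot, Ideal.toCotangent_eq]
    exact hpq
  rw [e, Matrix.range_cons, Matrix.range_cons, Matrix.range_empty, Set.union_empty,
    Set.singleton_union]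
  exact Submodule.mem_span_pair.2 ⟨p, q, rfl⟩

lemma finrank_cot : Module.finrank k (mm k).Cotangent = 2 := by
  have hli : LinearIndependent k ![(mm k).toCotangent ⟨X 0, X_mem 0⟩,
      (mm k).toCotangent ⟨X 1, X_mem 1⟩] := by
    rw [LinearIndependent.pair_iff]
    intro p q h
    rw [smul_cot, Ideal.toCotangent_eq_zero] at h
    exact lin_indep h
  have h := Module.finrank_eq_card_basis (Module.Basis.mk hli
    (top_le_span mm_eq.symm (X_mem 0) (X_mem 1)))
  rw [h, Fintype.card_fin]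

lemma indep_of_span {x y : A k} (h : Ideal.span {x, y} = mm k) {p q : k}
    (hpq : C p * x + C q * y ∈ mm k ^ 2) : p = 0 ∧ q = 0 := by
  have hx : x ∈ mm k := h ▸ Ideal.subset_span (by simp)
  have hy : y ∈ mm k := h ▸ Ideal.subset_span (by simp)
  have hli := linearIndependent_of_top_le_span_of_card_eq_finrank (top_le_span h hx hy)
    (by rw [finrank_cot, Fintype.card_fin])
  rw [LinearIndependent.pair_iff] at hli
  apply hli
  rw [smul_cot, Ideal.toCotangent_eq_zero]
  exact hpq

section sigma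

variable (σ : A k ≃ₐ[k] A k)

lemma map_C (c : k) : σ (C c) = C c := σ.commutes c

lemma map_mem {f : A k} (hf : f ∈ mm k) : σ f ∈ mm k := mm_le_comap σ hf

lemma sub_mem_one (f : A k) : σ f - f ∈ mm k := by
  have e : σ f - f = σ (f - C (constantCoeff f)) - (f - C (constantCoeff f)) := by
    rw [map_sub, map_C]; ring
  rw [e]
  exact sub_mem (map_mem σ (sub_C_mem f)) (sub_C_mem f)

lemma sub_mem_succ {x y : A k} (h : Ideal.span {x, y} = mm k) {n : ℕ}
    (hn : ∀ f, σ f - f ∈ mm k ^ n) (hx : σ x - x ∈ mm k ^ (n + 1))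
    (hy : σ y - y ∈ mm k ^ (n + 1)) (f : A k) : σ f - f ∈ mm k ^ (n + 1) := by
  have hx' : x ∈ mm k := h ▸ Ideal.subset_span (by simp)
  have hy' : y ∈ mm k := h ▸ Ideal.subset_span (by simp)
  have hf := sub_C_mem f
  rw [← h, Ideal.mem_span_pair] at hf
  obtain ⟨a, b, hab⟩ := hf
  have e1 : f = C (constantCoeff f) + (a * x + b * y) := by rw [hab]; ring
  have e2 : σ f - f = (σ a * (σ x - x) + (σ a - a) * x) + (σ b * (σ y - y) + (σ b - b) * y) := by
    rw [e1, map_add, map_C, map_add, map_mul, map_mul]; ring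
  rw [e2]
  refine add_mem (add_mem (Ideal.mul_mem_left _ _ hx) ?_) (add_mem (Ideal.mul_mem_left _ _ hy) ?_)
  · rw [pow_succ]; exact Ideal.mul_mem_mul (hn a) hx'
  · rw [pow_succ]; exact Ideal.mul_mem_mul (hn b) hy'

end sigma

theorem stmtP2 : StmtP2.{u} := by
  intro k _ σ h0 h1 h3
  have hall1 : ∀ f, σ f - f ∈ mm k ^ 1 := fun f => by rw [pow_one]; exact sub_mem_one σ f
  have hall : ∀ f, σ f - f ∈ mm k ^ 2 := sub_mem_succ σ mm_eq.symm hall1 h0 h1
  refine ⟨?_, ?_, ?_⟩
  · have hz : (mm k).mapCotangent (mm k) (σ : A k →ₐ[k] A k) (mm_le_comap σ) -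
        LinearMap.id = 0 := by
      ext c
      obtain ⟨⟨f, hf⟩, rfl⟩ := (mm k).toCotangent_surjective c
      rw [LinearMap.sub_apply, LinearMap.id_apply, LinearMap.zero_apply,
        Ideal.mapCotangent_toCotangent, sub_eq_zero, Ideal.toCotangent_eq]
      exact hall f
    rw [jordanBlocks, hz, LinearMap.ker_zero, finrank_top, finrank_cot]
  · exact ⟨X 0, X 1, mm_eq.symm, 1, 0, 0, 1, by simpa using h0, by simpa using h1⟩
  · rintro m ⟨x, y, hxy, a, b, c, d, hx, hy⟩
    by_contra hm
    have hm' : 3 ≤ m + 2 := by omega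
    have hx3 := Ideal.pow_le_pow_right hm' hx
    have hy3 := Ideal.pow_le_pow_right hm' hy
    have h32 : mm k ^ 3 ≤ mm k ^ 2 := Ideal.pow_le_pow_right (by norm_num)
    have ex : C (a - 1) * x + C b * y ∈ mm k ^ 2 := by
      have e : C (a - 1) * x + C b * y = (σ x - x) - (σ x - (C a * x + C b * y)) := by
        rw [map_sub, map_one]; ring
      rw [e]; exact sub_mem (hall x) (h32 hx3)
    have ey : C c * x + C (d - 1) * y ∈ mm k ^ 2 := by
      have e : C c * x + C (d - 1) * y = (σ y - y) - (σ y - (C c * x + C d * y)) := by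
        rw [map_sub, map_one]; ring
      rw [e]; exact sub_mem (hall y) (h32 hy3)
    obtain ⟨ha, hb⟩ := indep_of_span hxy ex
    obtain ⟨hc, hd⟩ := indep_of_span hxy ey
    rw [sub_eq_zero] at ha hd
    rw [ha, hb, map_one, map_zero, one_mul, zero_mul, add_zero] at hx3
    rw [hc, hd, map_one, map_zero, one_mul, zero_mul, zero_add] at hy3
    exact h3 (sub_mem_succ σ hxy hall hx3 hy3 (X 0))

/-- P1c: algebra homomorphisms are determined by the images of the variables -/
theorem alg_ext (φ ψ : A k →ₐ[k] A k) (h : ∀ i, φ (X i) = ψ (X i))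
    (hm : ∀ i, φ (X i) ∈ mm k) : φ = ψ := by
  have key : ∀ (n : ℕ) (f : A k), φ f - ψ f ∈ mm k ^ n := by
    intro n
    induction n with
    | zero => intro f; rw [pow_zero, Ideal.one_eq_top]; trivial
    | succ n ih =>
      intro f
      have hf := sub_C_mem f
      rw [mm_eq, Ideal.mem_span_pair] at hf
      obtain ⟨a, b, hab⟩ := hf
      have e1 : f = algebraMap k (A k) (constantCoeff f) + (a * X 0 + b * X 1) := by
        rw [hab, alg_C]; ring
      have e2 : φ f - ψ f = (φ a - ψ a) * φ (X 0) + (φ b - ψ b) * φ (X 1) := by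
        rw [e1]
        simp only [map_add, map_mul, AlgHom.commutes, h]
        ring
      rw [e2, pow_succ]
      exact add_mem (Ideal.mul_mem_mul (ih a) (hm 0)) (Ideal.mul_mem_mul (ih b) (hm 1))
  ext f m
  have h1 := coeff_of_mem_pow (m.degree + 1) _ (key _ f) m (Nat.lt_succ_self _)
  rw [map_sub, sub_eq_zero] at h1
  exact h1

end Pool.Agent.T9h46.WQ
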