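import Pool.Agent.T9h29.WQ.Spec

/-!
# P5: the 2-basis of the field of invariants
-/

set_option autoImplicit false

namespace Pool.Agent.T9h46.WQ

open MvPowerSeries Pool.Agent.T9h29.WQ

universe u

section ring

variable {R : Type u} [CommRing R]

/-- expansion of a power series with respect to the fixed elements -/
lemma key1 (h2 : (2 : R) = 0) (u v y X f0 f1 f2 f3 x z ka la H0 H2 G1 C : R)
    (hx : x = u ^ 2 + y * u) (hz : z = y * v + X ^ 2 * u) (hka : ka = X * f1 + f3 * v)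
    (hla : la = f1 * v + X * f2 + X ^ 2 * f1) (hH0 : H0 = y * f0 + la * u)
    (hH2 : H2 = y * f2 + ka * u) (hG1 : G1 = y * f1 + X * f3 * u)
    (hC : C = y ^ 2 * la ^ 2 + y * G1 ^ 2 + X ^ 2 * f3 ^ 2 * y * (y ^ 2 + x) + H2 ^ 2 * X ^ 2 +
      ka ^ 2 * z * y + ka ^ 2 * X ^ 2 * (y ^ 2 + x) + f3 ^ 2 * y ^ 2 * z +
      f3 ^ 2 * y ^ 3 * X ^ 2) :
    y ^ 3 * (f0 ^ 2 + f1 ^ 2 * u + f2 ^ 2 * v + f3 ^ 2 * (u * v)) =
      y * H0 ^ 2 + y * (la + ka * X) ^ 2 * x + ka ^ 2 * x * z + H2 ^ 2 * z + C * u := by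
  subst hC hG1 hH2 hH0 hla hka hz hx
  linear_combination (-1*u*y^2*X*f0*f2 - 2*u*y^2*X^2*f2^2 - 1*u*y^2*X^2*f0*f1 - 3*u*y^2*X^3*f1*f2 - 3*u*y^2*X^4*f1^2 - 1*u*y^3*X^2*f3^2 - 1*u*v*y^2*f0*f1 - 3*u*v*y^2*X*f1*f2 - 1*u*v*y^2*X^2*f2*f3 - 4*u*v*y^2*X^2*f1^2 - 3*u*v*y^2*X^3*f1*f3 - 1*u*v^2*y^2*f2*f3 - 1*u*v^2*y^2*f1^2 - 3*u*v^2*y^2*X*f1*f3 - 1*u*v^2*y^2*X^2*f3^2 - 1*u*v^3*y^2*f3^2 - 1*u^2*y*X^2*f2^2 - 5*u^2*y*X^3*f1*f2 - 4*u^2*y*X^4*f1^2 - 1*u^2*y^2*X*f1*f3 - 1*u^2*y^2*X^2*f3^2 - 2*u^2*v*y*X*f1*f2 - 3*u^2*v*y*X^2*f2*f3 - 4*u^2*v*y*X^2*f1^2 - 5*u^2*v*y*X^3*f1*f3 - 1*u^2*v^2*y*f1^2 - 3*u^2*v^2*y*X*f1*f3 - 2*u^2*v^2*y*X^2*f3^2 - 1*u^2*v^3*y*f3^2 - 2*u^3*X^4*f1^2 - 1*u^3*y*X^2*f3^2 - 4*u^3*v*X^3*f1*f3 - 2*u^3*v^2*X^2*f3^2) * h2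

/-- comparison of coefficients -/
lemma key2 (h2 : (2 : R) = 0) (u v y X f0 f1 f2 f3 q0 q1 q2 q3 : R)
    (hy : y = v ^ 2 + X ^ 2 * v)
    (h : f0 ^ 2 + f1 ^ 2 * u + f2 ^ 2 * v + f3 ^ 2 * (u * v) =
      q0 ^ 2 + q1 ^ 2 * (u + y) + q2 ^ 2 * (v + X ^ 2) + q3 ^ 2 * ((u + y) * (v + X ^ 2))) :
    (f0 + q0 + q1 * v + q2 * X) ^ 2 + (f1 + q1 + q3 * X) ^ 2 * u +
      (f2 + q1 * X + q2 + q3 * (v + X ^ 2)) ^ 2 * v + (f3 + q3) ^ 2 * (u * v) = 0 := by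
  subst hy
  linear_combination h + (1*q0^2 + 1*f0*q0 + 1*X*q0*q2 + 1*X*f0*q2 + 1*X^2*q2^2 + 1*v*q2^2 + 1*v*q0*q1 + 1*v*f2*q2 + 1*v*f0*q1 + 2*v*X*q1*q2 + 1*v*X*f2*q1 + 1*v*X^2*q2*q3 + 1*v*X^2*q1^2 + 1*v*X^2*f2*q3 + 1*v*X^3*q1*q3 + 1*v*X^4*q3^2 + 1*v^2*q2*q3 + 1*v^2*q1^2 + 1*v^2*f2*q3 + 1*v^2*X*q1*q3 + 2*v^2*X^2*q3^2 + 1*v^3*q3^2 + 1*u*q1^2 + 1*u*f1*q1 + 1*u*X*q1*q3 + 1*u*X*f1*q3 + 1*u*X^2*q3^2 + 1*u*v*q3^2 + 1*u*v*f3*q3) * h2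

end ring

section indep

variable {k : Type u} [Field k] [CharP k 2]

lemma two_eq_zero : (2 : A k) = 0 := by
  have h : (2 : k) = 0 := by exact_mod_cast CharP.cast_eq_zero k 2
  have h1 : (C (2 : k) : A k) = 2 := map_ofNat C 2
  rw [← h1, h, map_zero]

lemma pderiv_sq (i : Fin 2) (f g : A k) : pderiv k i (f ^ 2 * g) = f ^ 2 * pderiv k i g := by
  have h := two_eq_zero (k := k)
  rw [sq, Derivation.leibniz, Derivation.leibniz]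
  simp only [smul_eq_mul]
  linear_combination (g * f * pderiv k i f) * h

lemma pderiv_sq' (i : Fin 2) (f : A k) : pderiv k i (f ^ 2) = 0 := by
  have h := pderiv_sq i f 1
  rwa [mul_one, (pderiv k i).map_one_eq_zero, mul_zero] at h

lemma sq_indep {a b c d : A k}
    (h : a ^ 2 + b ^ 2 * X 0 + c ^ 2 * X 1 + d ^ 2 * (X 0 * X 1) = 0) :
    a = 0 ∧ b = 0 ∧ c = 0 ∧ d = 0 := by
  have e00 : pderiv k (0 : Fin 2) (X 0 : A k) = 1 := by simp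
  have e01 : pderiv k (0 : Fin 2) (X 1 : A k) = 0 := by simp
  have e10 : pderiv k (1 : Fin 2) (X 0 : A k) = 0 := by simp
  have e11 : pderiv k (1 : Fin 2) (X 1 : A k) = 1 := by simp
  have h0 := congrArg (pderiv k (0 : Fin 2)) h
  simp only [map_add, pderiv_sq', map_zero, Derivation.leibniz, e00, e01,
    smul_eq_mul, mul_zero, mul_one, zero_add, add_zero] at h0
  have h1 := congrArg (pderiv k (1 : Fin 2)) h
  simp only [map_add, pderiv_sq', map_zero, Derivation.leibniz, e10, e11,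
    smul_eq_mul, mul_zero, mul_one, zero_add, add_zero] at h1
  have h01 := congrArg (pderiv k (1 : Fin 2)) h0
  simp only [map_add, pderiv_sq, pderiv_sq', map_zero, e11, mul_one, zero_add] at h01
  have hd : d = 0 := by simpa using h01
  rw [hd] at h h0 h1
  have hb : b = 0 := by simpa using h0
  have hc : c = 0 := by simpa using h1
  rw [hb, hc] at h
  exact ⟨by simpa using h, hb, hc, hd⟩

lemma X_ne (i : Fin 2) : (X i : A k) ≠ 0 := by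
  intro h
  have h0 := congrArg (pderiv k i) h
  simp at h0

lemma X0_ne : (X 0 : A k) ≠ (X 1) ^ 2 := by
  intro h
  have h0 := congrArg (pderiv k (0 : Fin 2)) h
  rw [pderiv_sq'] at h0
  simp at h0

lemma X1_ne (f : A k) : (X 1 : A k) ≠ f ^ 2 := by
  intro h
  have h0 := congrArg (pderiv k (1 : Fin 2)) h
  rw [pderiv_sq'] at h0
  simp at h0

end indep

section main

variable {k : Type u} [Field k] [CharP k 2] {σ : A k ≃ₐ[k] A k} {x y : A k}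

lemma y_ne (h : Artin σ x y y (x ^ 4)) : y ≠ 0 := by
  intro h0
  have h1 := h.hy
  rw [h0] at h1
  have h2 : ((X 1 : A k) + x ^ 4) * X 1 = 0 := by linear_combination -h1
  have h3 : (X 1 : A k) + x ^ 4 = 0 := (mul_eq_zero.1 h2).resolve_right (X_ne _)
  exact X1_ne (x ^ 2) (by linear_combination h3 - x ^ 4 * two_eq_zero (k := k))

lemma x_ne (h : Artin σ x y y (x ^ 4)) : x ≠ 0 := by
  intro h0
  have h1 := h.hx
  have h4 := h.hy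
  rw [h0] at h1 h4
  have h2 : ((X 0 : A k) + y) * X 0 = 0 := by linear_combination -h1
  have h3 : (X 0 : A k) + y = 0 := (mul_eq_zero.1 h2).resolve_right (X_ne _)
  exact X0_ne (k := k) (by linear_combination h3 + h4 - y * two_eq_zero (k := k))

/-- the expansion of an invariant power series -/
lemma exp_A (h : Artin σ x y y (x ^ 4))
    (hz : σ (y * X 1 + x ^ 4 * X 0) = y * X 1 + x ^ 4 * X 0) {f f0 f1 f2 f3 : A k} (hf : σ f = f)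
    (he : f = f0 ^ 2 + f1 ^ 2 * X 0 + f2 ^ 2 * X 1 + f3 ^ 2 * (X 0 * X 1)) :
    ∃ H0 la ka H2 : A k, σ H0 = H0 ∧ σ la = la ∧ σ ka = ka ∧ σ H2 = H2 ∧
      y ^ 3 * f = y * H0 ^ 2 + y * (la + ka * x ^ 2) ^ 2 * x +
        ka ^ 2 * x * (y * X 1 + x ^ 4 * X 0) + H2 ^ 2 * (y * X 1 + x ^ 4 * X 0) := by
  have t := two_eq_zero (k := k)
  have hx : σ x = x := h.sx
  have hy : σ y = y := h.sy
  have hu : σ (X 0) = X 0 + y := h.su
  have hv : σ (X 1) = X 1 + x ^ 4 := h.sv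
  have e1 : σ f = σ f0 ^ 2 + σ f1 ^ 2 * (X 0 + y) + σ f2 ^ 2 * (X 1 + (x ^ 2) ^ 2) +
      σ f3 ^ 2 * ((X 0 + y) * (X 1 + (x ^ 2) ^ 2)) := by
    rw [he]
    simp only [map_add, map_mul, map_pow, hu, hv]
    ring
  have e2 := key2 t (X 0) (X 1) y (x ^ 2) f0 f1 f2 f3 (σ f0) (σ f1) (σ f2) (σ f3)
    (by linear_combination h.hy) (by rw [← he, ← e1, hf])
  obtain ⟨r0, r1, r2, r3⟩ := sq_indep e2
  have s3 : σ f3 = f3 := by linear_combination r3 - f3 * t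
  have s1 : σ f1 = f1 + f3 * x ^ 2 := by linear_combination r1 - f1 * t - x ^ 2 * r3
  have s2 : σ f2 = f2 + (x ^ 2 * f1 + f3 * X 1) := by
    linear_combination r2 - x ^ 2 * s1 - (X 1 + (x ^ 2) ^ 2) * s3 -
      (f2 + f1 * x ^ 2 + f3 * X 1 + f3 * (x ^ 2) ^ 2) * t
  have s0 : σ f0 = f0 + (f1 * X 1 + x ^ 2 * f2 + (x ^ 2) ^ 2 * f1) := by
    linear_combination r0 - X 1 * s1 - x ^ 2 * s2 -
      (f0 + X 1 * f1 + x ^ 2 * f2 + (x ^ 2) ^ 2 * f1 + x ^ 2 * f3 * X 1) * t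
  obtain ⟨ka, hka⟩ : ∃ ka, ka = x ^ 2 * f1 + f3 * X 1 := ⟨_, rfl⟩
  obtain ⟨la, hla⟩ : ∃ la, la = f1 * X 1 + x ^ 2 * f2 + (x ^ 2) ^ 2 * f1 := ⟨_, rfl⟩
  obtain ⟨H0, hH0⟩ : ∃ H0, H0 = y * f0 + la * X 0 := ⟨_, rfl⟩
  obtain ⟨H2, hH2⟩ : ∃ H2, H2 = y * f2 + ka * X 0 := ⟨_, rfl⟩
  obtain ⟨G1, hG1⟩ : ∃ G1, G1 = y * f1 + x ^ 2 * f3 * X 0 := ⟨_, rfl⟩
  obtain ⟨z, hzz⟩ : ∃ z, z = y * X 1 + x ^ 4 * X 0 := ⟨_, rfl⟩
  rw [← hzz] at hz ⊢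
  rw [← hka] at s2
  rw [← hla] at s0
  have ska : σ ka = ka := by
    rw [hka]
    simp only [map_add, map_mul, map_pow, hx, hv, s1, s3]
    linear_combination (f3 * x ^ 4) * t
  have sla : σ la = la := by
    rw [hla]
    simp only [map_add, map_mul, map_pow, hx, hv, s1, s2, hka]
    linear_combination (x ^ 4 * f1 + f3 * x ^ 2 * X 1 + f3 * x ^ 6) * t
  have sH0 : σ H0 = H0 := by
    rw [hH0]
    simp only [map_add, map_mul, hy, hu, s0, sla]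
    linear_combination (y * la) * t
  have sH2 : σ H2 = H2 := by
    rw [hH2]
    simp only [map_add, map_mul, hy, hu, s2, ska]
    linear_combination (y * ka) * t
  have sG1 : σ G1 = G1 := by
    rw [hG1]
    simp only [map_add, map_mul, map_pow, hx, hy, hu, s1, s3]
    linear_combination (x ^ 2 * y * f3) * t
  obtain ⟨C, hC⟩ : ∃ C, C = y ^ 2 * la ^ 2 + y * G1 ^ 2 +
      (x ^ 2) ^ 2 * f3 ^ 2 * y * (y ^ 2 + x) + H2 ^ 2 * (x ^ 2) ^ 2 +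
      ka ^ 2 * z * y + ka ^ 2 * (x ^ 2) ^ 2 * (y ^ 2 + x) + f3 ^ 2 * y ^ 2 * z +
      f3 ^ 2 * y ^ 3 * (x ^ 2) ^ 2 := ⟨_, rfl⟩
  have sC : σ C = C := by
    rw [hC]
    simp only [map_add, map_mul, map_pow, hx, hy, hz, sla, ska, sG1, sH2, s3]
  have k1 := key1 t (X 0) (X 1) y (x ^ 2) f0 f1 f2 f3 x z ka la H0 H2 G1 C h.hx
    (by rw [hzz]; ring) hka hla hH0 hH2 hG1 hC
  rw [← he] at k1
  have k2 := congrArg σ k1
  simp only [map_add, map_mul, map_pow, hx, hy, hz, sla, ska, sH0, sH2, sC, hf, hu] at k2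
  have k3 : C * y = 0 := by linear_combination k1 - k2
  have k4 : C = 0 := (mul_eq_zero.1 k3).resolve_right (y_ne h)
  rw [k4, zero_mul, add_zero] at k1
  exact ⟨H0, la, ka, H2, sH0, sla, ska, sH2, k1⟩

lemma fin {K : Type u} [Field K] {F G Y x z h0 l ka h2 : K} (hG : G ≠ 0) (hY : Y ≠ 0)
    (hx : x ≠ 0)
    (h : Y ^ 3 * (F * G) = Y * h0 ^ 2 + Y * (l + ka * x ^ 2) ^ 2 * x + ka ^ 2 * x * z +
      h2 ^ 2 * z) :
    F / G = (h0 / (Y * G)) ^ 2 + ((l + ka * x ^ 2) / (Y * G)) ^ 2 * x +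
      (ka * x / (Y * G)) ^ 2 * (z / (x * Y)) + (h2 / (Y * G)) ^ 2 * (x * (z / (x * Y))) := by
  field_simp
  linear_combination h

end main

theorem stmtP5 (hP : StmtP1a.{u}) : StmtP5.{u} := by
  intro k _ _ _ σ _ x y h hz p
  obtain ⟨F, G, hG, rfl⟩ := IsFractionRing.div_surjective (A := invariants σ) p
  have hG0 : algebraMap (invariants σ) (FractionRing (invariants σ)) G ≠ 0 := by
    have := nonZeroDivisors.ne_zero hG
    exact (map_ne_zero_iff _ (IsFractionRing.injective _ _)).2 this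
  have hF : σ F.1 = F.1 := F.2
  have hG' : σ G.1 = G.1 := G.2
  have hFG : σ (F.1 * G.1) = F.1 * G.1 := by rw [map_mul, hF, hG']
  obtain ⟨f0, f1, f2, f3, he⟩ := hP k (F.1 * G.1)
  obtain ⟨H0, la, ka, H2, sH0, sla, ska, sH2, e⟩ := exp_A h hz hFG he
  have hx0 : toK σ x h.sx ≠ 0 := by
    refine (map_ne_zero_iff _ (IsFractionRing.injective _ _)).2 fun h0 => x_ne h ?_
    exact congrArg Subtype.val h0
  have hy0 : toK σ y h.sy ≠ 0 := by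
    refine (map_ne_zero_iff _ (IsFractionRing.injective _ _)).2 fun h0 => y_ne h ?_
    exact congrArg Subtype.val h0
  refine ⟨_, _, _, _, fin (h0 := toK σ H0 sH0) (l := toK σ la sla) (ka := toK σ ka ska)
    (h2 := toK σ H2 sH2) hG0 hy0 hx0 ?_⟩
  simp only [toK, ← map_mul, ← map_pow, ← map_add]
  congr 1
  exact Subtype.ext e

end Pool.Agent.T9h46.WQ
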